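import Pool.Agent.Helper61.QT.GoalsP

/-!
Project QT+ (MP_0ebdb3_gt), packet POI: the Poincare lemma on the plane.
-/

set_option autoImplicit false

open Set

namespace Pool.Agent.Helper36.QT

open Pool.Agent.Helper61.QT

/-- the form `-(A dr + A' ds)` -/
noncomputable def om (Ar As : ℝ × ℝ → ℝ × ℝ) (z : ℝ × ℝ) : ℝ × ℝ →L[ℝ] ℝ × ℝ :=
  (ContinuousLinearMap.fst ℝ ℝ ℝ).smulRight (-Ar z) +
    (ContinuousLinearMap.snd ℝ ℝ ℝ).smulRight (-As z)

theorem om_apply (Ar As : ℝ × ℝ → ℝ × ℝ) (z v : ℝ × ℝ) :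
    om Ar As z v = v.1 • (-Ar z) + v.2 • (-As z) := rfl

theorem om_smooth (Ar As : ℝ × ℝ → ℝ × ℝ) (hr : ContDiff ℝ 1 Ar) (hs : ContDiff ℝ 1 As) :
    ContDiff ℝ 1 (om Ar As) := by
  unfold om
  exact (contDiff_const.smulRight hr.neg).add (contDiff_const.smulRight hs.neg)

theorem goalPOI : G_POI := by
  intro Ar As hr hs hOm
  have hsm := om_smooth Ar As hr hs
  have hd : Differentiable ℝ (om Ar As) := hsm.differentiable (by norm_num)
  have hdr : Differentiable ℝ Ar := hr.differentiable (by norm_num)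
  have hds : Differentiable ℝ As := hs.differentiable (by norm_num)
  have hval : ∀ z v u : ℝ × ℝ, fderiv ℝ (om Ar As) z v u =
      u.1 • (-fderiv ℝ Ar z v) + u.2 • (-fderiv ℝ As z v) := by
    intro z v u
    have h1 : HasFDerivAt (fun y => om Ar As y u)
        (u.1 • (-fderiv ℝ Ar z) + u.2 • (-fderiv ℝ As z)) z :=
      ((hdr z).hasFDerivAt.neg.const_smul u.1).add ((hds z).hasFDerivAt.neg.const_smul u.2)
    have h2 : HasFDerivAt (fun y => om Ar As y u)
        ((fderiv ℝ (om Ar As) z).flip u) z := by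
      have := (hd z).hasFDerivAt.clm_apply (hasFDerivAt_const u z)
      simpa using this
    have h3 := h2.unique h1
    have h4 := congrArg (fun L : ℝ × ℝ →L[ℝ] ℝ × ℝ => L v) h3
    exact h4
  have hsymm : ∀ z v u : ℝ × ℝ, fderiv ℝ (om Ar As) z v u = fderiv ℝ (om Ar As) z u v := by
    intro z v u
    have hv : ∀ w : ℝ × ℝ, w = w.1 • ((1 : ℝ), (0 : ℝ)) + w.2 • ((0 : ℝ), (1 : ℝ)) := by
      intro w
      ext <;> simp
    have hO := hOm z
    unfold Om at hO
    have hO' : fderiv ℝ As z (1, 0) = fderiv ℝ Ar z (0, 1) := sub_eq_zero.mp hO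
    have e1 : ∀ (L : ℝ × ℝ →L[ℝ] ℝ × ℝ) (w : ℝ × ℝ),
        L w = w.1 • L (1, 0) + w.2 • L (0, 1) := by
      intro L w
      conv_lhs => rw [hv w]
      rw [map_add, map_smul, map_smul]
    rw [hval, hval, e1 (fderiv ℝ Ar z) v, e1 (fderiv ℝ As z) v, e1 (fderiv ℝ Ar z) u,
      e1 (fderiv ℝ As z) u, hO']
    module
  obtain ⟨φ, hφ⟩ : ∃ φ : ℝ × ℝ → ℝ × ℝ, ∀ z ∈ (univ : Set (ℝ × ℝ)),
      HasFDerivAt φ (om Ar As z) z :=
    convex_univ.exists_forall_hasFDerivAt_of_fderiv_symmetric isOpen_univ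
      hd.differentiableOn (fun z _ v u => hsymm z v u)
  have hφ' : ∀ z, HasFDerivAt φ (om Ar As z) z := fun z => hφ z (mem_univ z)
  have hfd : fderiv ℝ φ = om Ar As := funext fun z => (hφ' z).fderiv
  refine ⟨φ, ?_, fun z => ⟨?_, ?_⟩⟩
  · have h1 : ContDiff ℝ (1 + 1) φ := by
      rw [contDiff_succ_iff_fderiv]
      refine ⟨fun z => (hφ' z).differentiableAt, by simp, ?_⟩
      rw [hfd]
      exact hsm
    exact h1.of_le (by norm_num)
  · rw [hfd, om_apply]
    simp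
  · rw [hfd, om_apply]
    simp

end Pool.Agent.Helper36.QT
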